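import Mathlib

/-!
# The corotational Jeffreys model: function spaces and weak solutions, in components

Vector fields are families `u : Fin n → Vec n → ℝ` of scalar functions (`u i x` is the `i`-th
component at the point `x`), matrix fields are families `A : Fin n → Fin n → Vec n → ℝ`.
Time dependent fields have the time as first argument: `v t i x`, `τ t i j x`.
-/

open MeasureTheory Set
open scoped ContDiff

namespace Pool.Agent.Helper42.JefStmt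

/-- Euclidean space `ℝⁿ` -/
abbrev Vec (n : ℕ) : Type := EuclideanSpace ℝ (Fin n)

/-- vector fields, by components -/
abbrev VField (n : ℕ) : Type := Fin n → Vec n → ℝ

/-- matrix fields, by entries -/
abbrev MField (n : ℕ) : Type := Fin n → Fin n → Vec n → ℝ

variable {n : ℕ}

/-- partial derivative: `pd j g x = ∂_j g (x)` -/
noncomputable def pd (j : Fin n) (g : Vec n → ℝ) (x : Vec n) : ℝ :=
  fderiv ℝ g x (EuclideanSpace.single j 1)

/-- gradient of a vector field, `(grad u) i j = ∂_j u_i` -/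
noncomputable def grad (u : VField n) : MField n := fun i j => pd j (u i)

/-- test fields: smooth divergence free vector fields with compact support in `Ω` -/
structure IsTestField (Ω : Set (Vec n)) (φ : VField n) : Prop where
  smooth : ∀ i, ContDiff ℝ ∞ (φ i)
  compact : ∀ i, HasCompactSupport (φ i)
  support : ∀ i, tsupport (φ i) ⊆ Ω
  div_free : ∀ x, ∑ i, pd i (φ i) x = 0

/-- `‖u‖² + ‖U‖²` with the `L²(Ω)` norms; for `U = ∇u` this is the squared `W^{1,2}(Ω)` norm -/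
noncomputable def sqNorm (Ω : Set (Vec n)) (u : VField n) (U : MField n) : ℝ :=
  ∫ x in Ω, (∑ i, u i x ^ 2 + ∑ i, ∑ j, U i j x ^ 2)

/-- `u ∈ L²(Ω)ⁿ` -/
def InL2 (Ω : Set (Vec n)) (u : VField n) : Prop := ∀ i, MemLp (u i) 2 (volume.restrict Ω)

/-- `A ∈ L²(Ω)^{n×n}` -/
def InL2M (Ω : Set (Vec n)) (A : MField n) : Prop := ∀ i j, MemLp (A i j) 2 (volume.restrict Ω)

/-- `u ∈ H`: the closure of the test fields in `L²(Ω)ⁿ` -/
def InH (Ω : Set (Vec n)) (u : VField n) : Prop :=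
  InL2 Ω u ∧ ∀ ε : ℝ, 0 < ε → ∃ φ : VField n, IsTestField Ω φ ∧ sqNorm Ω (u - φ) 0 < ε

/-- `u ∈ V`, the closure of the test fields in `W^{1,2}(Ω)ⁿ`, and `U = ∇u` -/
def InV (Ω : Set (Vec n)) (u : VField n) (U : MField n) : Prop :=
  InL2 Ω u ∧ InL2M Ω U ∧
    ∀ ε : ℝ, 0 < ε → ∃ φ : VField n, IsTestField Ω φ ∧ sqNorm Ω (u - φ) (U - grad φ) < ε

/-- `ℓ ∈ V*` with `‖ℓ‖ ≤ C`; the functional is given by its values on the test fields, which are
dense in `V` -/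
structure InVDual (Ω : Set (Vec n)) (ℓ : VField n → ℝ) (C : ℝ) : Prop where
  add : ∀ φ ψ, IsTestField Ω φ → IsTestField Ω ψ → ℓ (φ + ψ) = ℓ φ + ℓ ψ
  smul : ∀ (r : ℝ) (φ : VField n), IsTestField Ω φ → ℓ (r • φ) = r * ℓ φ
  bound : ∀ φ, IsTestField Ω φ → |ℓ φ| ≤ C * Real.sqrt (sqNorm Ω φ (grad φ))

/-- `f ∈ L²(0,T;V*)` for every `T > 0` -/
def IsForce (Ω : Set (Vec n)) (f : ℝ → VField n → ℝ) : Prop :=
  (∀ φ, IsTestField Ω φ → AEStronglyMeasurable (fun t => f t φ) (volume.restrict (Ioi 0))) ∧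
  ∃ g : ℝ → ℝ, (∀ T : ℝ, 0 < T → IntegrableOn (fun t => g t ^ 2) (Ioo 0 T)) ∧
    ∀ᵐ t ∂(volume.restrict (Ioi 0)), InVDual Ω (f t) (g t)

/-- scalar space-time test functions `ψ ∈ C_c^∞((-∞,T) × Ω)` -/
structure IsTest (Ω : Set (Vec n)) (T : ℝ) (ψ : ℝ → Vec n → ℝ) : Prop where
  smooth : ContDiff ℝ ∞ (fun z : ℝ × Vec n => ψ z.1 z.2)
  compact : HasCompactSupport (fun z : ℝ × Vec n => ψ z.1 z.2)
  support : tsupport (fun z : ℝ × Vec n => ψ z.1 z.2) ⊆ Iio T ×ˢ Ω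

/-- divergence free space-time test fields `Φ ∈ C_c^∞((-∞,T) × Ω)ⁿ` -/
def IsTestV (Ω : Set (Vec n)) (T : ℝ) (Φ : ℝ → VField n) : Prop :=
  (∀ i, IsTest Ω T (fun t => Φ t i)) ∧ ∀ t x, ∑ i, pd i (Φ t i) x = 0

/-- the weak form of `∂_t v + (v·∇)v - μ Δv + ∇p = f + Div τ`, `v(0) = v₀`, on `(0,T) × Ω`, tested
with the divergence free field `Φ`; here `G = ∇v` -/
def MomentumEq (Ω : Set (Vec n)) (μ : ℝ) (f : ℝ → VField n → ℝ) (v0 : VField n) (T : ℝ)
    (v : ℝ → VField n) (G τ : ℝ → MField n) (Φ : ℝ → VField n) : Prop :=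
  (∫ t in Ioo 0 T, ((∫ x in Ω, (∑ i, v t i x * deriv (fun s => Φ s i x) t +
      ∑ i, ∑ j, (v t i x * v t j x - μ * G t i j x - τ t i j x) * pd j (Φ t i) x)) +
    f t (Φ t))) + ∫ x in Ω, ∑ i, v0 i x * Φ 0 i x = 0

/-- `E(v)_{ij} = (∂_j v_i + ∂_i v_j) / 2`, where `G = ∇v` -/
noncomputable def strain (G : MField n) : MField n := fun i j x => (G i j x + G j i x) / 2

/-- `W(v)_{ij} = (∂_j v_i - ∂_i v_j) / 2`, where `G = ∇v` -/
noncomputable def spin (G : MField n) : MField n := fun i j x => (G i j x - G j i x) / 2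

/-- matrix product `A B` -/
noncomputable def mul (A B : MField n) : MField n := fun i j x => ∑ k, A i k x * B k j x

/-- the weak form of the `(i,j)` entry of
`τ + λ₁ (∂_t τ + (v·∇)τ + τ W - W τ) = 2 η (1 - λ₂/λ₁) E`, `τ(0) = τ₀`, on `(0,T) × Ω`, tested with
the scalar function `ψ`; here `G = ∇v`, `E = strain G`, `W = spin G` -/
def StressEq (Ω : Set (Vec n)) (η lam1 lam2 : ℝ) (τ0 : MField n) (T : ℝ) (v : ℝ → VField n)
    (G τ : ℝ → MField n) (i j : Fin n) (ψ : ℝ → Vec n → ℝ) : Prop :=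
  (∫ t in Ioo 0 T, ∫ x in Ω, (τ t i j x * ψ t x -
      lam1 * τ t i j x * (deriv (fun s => ψ s x) t + ∑ k, v t k x * pd k (ψ t) x) +
      lam1 * (mul (τ t) (spin (G t)) i j x - mul (spin (G t)) (τ t) i j x) * ψ t x -
      2 * η * (1 - lam2 / lam1) * strain (G t) i j x * ψ t x)) -
    lam1 * ∫ x in Ω, τ0 i j x * ψ 0 x = 0

/-- weak solutions `(v, τ)` on `[0,T]` of the corotational Jeffreys system, with
`μ₀ = η λ₂ / λ₁`; `G` is the gradient of `v` -/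
structure IsWeakSolution (Ω : Set (Vec n)) (η lam1 lam2 : ℝ) (f : ℝ → VField n → ℝ)
    (v0 : VField n) (τ0 : MField n) (T : ℝ) (v : ℝ → VField n) (G τ : ℝ → MField n) : Prop where
  /-- joint measurability -/
  meas_v : ∀ i, AEStronglyMeasurable (fun z : ℝ × Vec n => v z.1 i z.2)
    (volume.restrict (Ioo 0 T ×ˢ Ω))
  meas_G : ∀ i j, AEStronglyMeasurable (fun z : ℝ × Vec n => G z.1 i j z.2)
    (volume.restrict (Ioo 0 T ×ˢ Ω))
  meas_τ : ∀ i j, AEStronglyMeasurable (fun z : ℝ × Vec n => τ z.1 i j z.2)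
    (volume.restrict (Ioo 0 T ×ˢ Ω))
  /-- `v(t) ∈ V` with gradient `G(t)` for almost every `t` -/
  in_V : ∀ᵐ t ∂(volume.restrict (Ioo 0 T)), InV Ω (v t) (G t)
  /-- `v ∈ L²(0,T;V)` -/
  sq_V : IntegrableOn (fun t => sqNorm Ω (v t) (G t)) (Ioo 0 T)
  /-- `v ∈ L^∞(0,T;H)` -/
  bd_v : ∃ C : ℝ, ∀ᵐ t ∂(volume.restrict (Ioo 0 T)), sqNorm Ω (v t) 0 ≤ C
  /-- `τ ∈ L^∞(0,T;L²)` -/
  bd_τ : ∃ C : ℝ, ∀ᵐ t ∂(volume.restrict (Ioo 0 T)), InL2M Ω (τ t) ∧ sqNorm Ω 0 (τ t) ≤ C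
  /-- `τ` is symmetric -/
  symm : ∀ t i j x, τ t i j x = τ t j i x
  /-- momentum equation and initial velocity -/
  momentum : ∀ Φ, IsTestV Ω T Φ → MomentumEq Ω (η * lam2 / lam1) f v0 T v G τ Φ
  /-- constitutive law and initial stress -/
  stress : ∀ (i j : Fin n) (ψ), IsTest Ω T ψ → StressEq Ω η lam1 lam2 τ0 T v G τ i j ψ

/-- global weak solutions: weak solutions on `[0,T]` for every `T > 0` -/
def HasGlobalWeakSolution (Ω : Set (Vec n)) (η lam1 lam2 : ℝ) (f : ℝ → VField n → ℝ)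
    (v0 : VField n) (τ0 : MField n) : Prop :=
  ∃ (v : ℝ → VField n) (G τ : ℝ → MField n), ∀ T : ℝ, 0 < T →
    IsWeakSolution Ω η lam1 lam2 f v0 τ0 T v G τ

end Pool.Agent.Helper42.JefStmt
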