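import Pool.Agent.Helper42.Jef.Fin7
import Pool.Agent.Helper42.JefStmt.Defs

/-! # From components to vectors, space level -/

open MeasureTheory Set Filter Topology
open scoped ENNReal NNReal ContDiff

namespace Pool.Agent.Helper42.JefStmt

open Pool.Agent.Helper42.Jef (Eu Mt ST IsVT bv tr sy sp br IsVTest IsMTest)

set_option maxHeartbeats 1000000

variable {n : ℕ} {Ω : Set (Vec n)}

/-- components of a vector valued map -/
def cmp (φ : Eu n → Eu n) : VField n := fun i x => φ x i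

/-- entries of a matrix valued map -/
def cmpM (A : Eu n → Mt n) : MField n := fun i j x => A x (i, j)

theorem pd_cmp {φ : Eu n → Eu n} (h : Differentiable ℝ φ) (i j : Fin n) (x : Eu n) :
    pd j (cmp φ i) x = Pool.Agent.Helper42.Jef.grad φ x (i, j) := by
  have h1 : HasFDerivAt (cmp φ i)
      ((EuclideanSpace.proj (𝕜 := ℝ) i : Eu n →L[ℝ] ℝ).comp (fderiv ℝ φ x)) x :=
    (EuclideanSpace.proj (𝕜 := ℝ) i : Eu n →L[ℝ] ℝ).hasFDerivAt.comp x (h x).hasFDerivAt
  unfold pd
  rw [h1.fderiv]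
  rfl

theorem grad_cmp {φ : Eu n → Eu n} (h : Differentiable ℝ φ) :
    grad (cmp φ) = cmpM (Pool.Agent.Helper42.Jef.grad φ) := by
  funext i j x
  exact pd_cmp h i j x

theorem vt_diff {φ : Eu n → Eu n} (h : IsVT Ω φ) : Differentiable ℝ φ :=
  h.smooth.differentiable (by simp)

theorem test_cmp {φ : Eu n → Eu n} (h : IsVT Ω φ) : IsTestField Ω (cmp φ) where
  smooth := fun i => contDiff_euclidean.1 h.smooth i
  compact := fun i => h.cpt.comp_left (g := fun u : Eu n => u i) rfl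
  support := fun i => by
    refine (closure_mono fun x hx => ?_).trans h.supp
    intro h0
    apply hx
    show φ x i = 0
    rw [h0]
    rfl
  div_free := fun x => by
    have h1 := h.div0 x
    rw [← h1]
    refine Finset.sum_congr rfl fun i _ => ?_
    rw [pd_cmp (vt_diff h)]
    rfl

theorem vec_sq (u : Eu n) : ∑ i, u i ^ 2 = ‖u‖ ^ 2 := by
  rw [EuclideanSpace.norm_sq_eq]
  simp only [Real.norm_eq_abs, sq_abs]

theorem mat_sq (A : Mt n) : ∑ i, ∑ j, A (i, j) ^ 2 = ‖A‖ ^ 2 := by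
  rw [EuclideanSpace.norm_sq_eq, Fintype.sum_prod_type]
  simp only [Real.norm_eq_abs, sq_abs]

theorem sqNorm_cmp (u : Eu n → Eu n) (U : Eu n → Mt n) :
    sqNorm Ω (cmp u) (cmpM U) = ∫ x in Ω, (‖u x‖ ^ 2 + ‖U x‖ ^ 2) := by
  unfold sqNorm cmp cmpM
  simp only [vec_sq, mat_sq]

theorem sqNorm_cmp_zero (u : Eu n → Eu n) :
    sqNorm Ω (cmp u) 0 = ∫ x in Ω, ‖u x‖ ^ 2 := by
  unfold sqNorm cmp
  simp [vec_sq]

theorem sqNorm_zero_cmp (U : Eu n → Mt n) :
    sqNorm Ω 0 (cmpM U) = ∫ x in Ω, ‖U x‖ ^ 2 := by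
  unfold sqNorm cmpM
  simp [mat_sq]

theorem memLp_cmp {α : Type*} [MeasurableSpace α] {ν : Measure α} {u : α → Eu n}
    (h : MemLp u 2 ν) (i : Fin n) : MemLp (fun x => u x i) 2 ν :=
  (EuclideanSpace.proj (𝕜 := ℝ) i : Eu n →L[ℝ] ℝ).comp_memLp' h

theorem memLp_cmpM {α : Type*} [MeasurableSpace α] {ν : Measure α} {U : α → Mt n}
    (h : MemLp U 2 ν) (i j : Fin n) : MemLp (fun x => U x (i, j)) 2 ν :=
  (EuclideanSpace.proj (𝕜 := ℝ) (i, j) : Mt n →L[ℝ] ℝ).comp_memLp' h

theorem memLp_vec {α : Type*} [MeasurableSpace α] {ν : Measure α} {u : Fin n → α → ℝ}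
    (h : ∀ i, MemLp (u i) 2 ν) : MemLp (fun x => (WithLp.toLp 2 (fun i => u i x) : Eu n)) 2 ν :=
  MemLp.of_eval_piLp h

theorem memLp_mat {α : Type*} [MeasurableSpace α] {ν : Measure α} {U : Fin n → Fin n → α → ℝ}
    (h : ∀ i j, MemLp (U i j) 2 ν) :
    MemLp (fun x => (WithLp.toLp 2 (fun p : Fin n × Fin n => U p.1 p.2 x) : Mt n)) 2 ν :=
  MemLp.of_eval_piLp fun p => h p.1 p.2

/-- membership in `V` from approximation by test fields -/
theorem inV_cmp {u : Eu n → Eu n} {U : Eu n → Mt n} (hu : MemLp u 2 volume)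
    (hU : MemLp U 2 volume)
    (h : ∀ ε : ℝ, 0 < ε → ∃ φ, IsVT Ω φ ∧
      eLpNorm (fun x => u x - φ x) 2 volume ≤ ENNReal.ofReal ε ∧
      eLpNorm (fun x => U x - Pool.Agent.Helper42.Jef.grad φ x) 2 volume ≤ ENNReal.ofReal ε) :
    InV Ω (cmp u) (cmpM U) := by
  refine ⟨fun i => memLp_cmp (hu.restrict Ω) i, fun i j => memLp_cmpM (hU.restrict Ω) i j,
    fun ε hε => ?_⟩
  set δ := min 1 (ε / 4) with hδ
  have hδ0 : 0 < δ := lt_min one_pos (by positivity)
  have hδ1 : δ ≤ 1 := min_le_left _ _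
  have hδ2 : δ ≤ ε / 4 := min_le_right _ _
  obtain ⟨φ, hφ, h1, h2⟩ := h δ hδ0
  refine ⟨cmp φ, test_cmp hφ, ?_⟩
  rw [grad_cmp (vt_diff hφ)]
  have e0 : sqNorm Ω (cmp u - cmp φ) (cmpM U - cmpM (Pool.Agent.Helper42.Jef.grad φ)) =
      sqNorm Ω (cmp fun x => u x - φ x)
        (cmpM fun x => U x - Pool.Agent.Helper42.Jef.grad φ x) := rfl
  have m1 : MemLp (fun x => u x - φ x) 2 (volume.restrict Ω) :=
    (hu.restrict Ω).sub (Pool.Agent.Helper42.Jef.vt_memLp hφ)
  have m2 : MemLp (fun x => U x - Pool.Agent.Helper42.Jef.grad φ x) 2 (volume.restrict Ω) :=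
    (hU.restrict Ω).sub (Pool.Agent.Helper42.Jef.vt_grad_memLp hφ)
  rw [e0, sqNorm_cmp, integral_add m1.norm.integrable_sq m2.norm.integrable_sq,
    ← Pool.Agent.Helper42.Jef.toReal_eLpNorm_sq m1, ← Pool.Agent.Helper42.Jef.toReal_eLpNorm_sq m2]
  have k1 : (eLpNorm (fun x => u x - φ x) 2 (volume.restrict Ω)).toReal ≤ δ :=
    ENNReal.toReal_le_of_le_ofReal hδ0.le
      ((eLpNorm_mono_measure _ Measure.restrict_le_self).trans h1)
  have k2 : (eLpNorm (fun x => U x - Pool.Agent.Helper42.Jef.grad φ x) 2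
      (volume.restrict Ω)).toReal ≤ δ :=
    ENNReal.toReal_le_of_le_ofReal hδ0.le
      ((eLpNorm_mono_measure _ Measure.restrict_le_self).trans h2)
  have p1 := pow_le_pow_left₀ ENNReal.toReal_nonneg k1 2
  have p2 := pow_le_pow_left₀ ENNReal.toReal_nonneg k2 2
  have p3 : δ ^ 2 ≤ δ := by nlinarith
  linarith

/-- the vector level force functional -/
theorem force_cmp (hΩm : MeasurableSet Ω) {f : ℝ → VField n → ℝ} (hf : IsForce Ω f) :
    ∃ (F : ℝ → (Eu n → Eu n) → ℝ) (g : ℝ → ℝ), Pool.Agent.Helper42.Jef.IsForce Ω F g ∧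
      ∀ᵐ t ∂(volume.restrict (Ioi (0:ℝ))), ∀ φ : Eu n → Eu n, F t φ = f t (cmp φ) := by
  classical
  obtain ⟨hm, g, hg, hae⟩ := hf
  set S : Set ℝ := {t | 0 < t ∧ InVDual Ω (f t) (g t)} with hS
  have hae' : ∀ᵐ t : ℝ, 0 < t → t ∈ S := by
    rw [ae_restrict_iff' measurableSet_Ioi] at hae
    filter_upwards [hae] with t ht h0
    exact ⟨h0, ht h0⟩
  have hg2 : AEStronglyMeasurable (fun t => g t ^ 2) (volume.restrict (Ioi 0)) := by
    have e : Ioi (0:ℝ) = ⋃ k : ℕ, Ioo (0:ℝ) ((k:ℝ) + 1) := by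
      ext t
      simp only [mem_Ioi, mem_iUnion, mem_Ioo]
      constructor
      · intro ht
        obtain ⟨k, hk⟩ := exists_nat_gt t
        exact ⟨k, ht, by linarith⟩
      · rintro ⟨k, hk, _⟩
        exact hk
    rw [e]
    exact AEStronglyMeasurable.iUnion fun k => (hg ((k:ℝ) + 1) (by positivity)).1
  have hgabs : AEStronglyMeasurable (fun t => |g t|) (volume.restrict (Ioi 0)) := by
    have h1 := Real.continuous_sqrt.comp_aestronglyMeasurable hg2
    refine h1.congr (Eventually.of_forall fun t => ?_)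
    exact Real.sqrt_sq_eq_abs _
  refine ⟨fun t φ => if t ∈ S then f t (cmp φ) else 0,
    (Ioi (0:ℝ)).indicator (fun t => |g t|), ?_, ?_⟩
  · refine
      { add := ?_
        smul := ?_
        bound := ?_
        meas := ?_
        gmeas := ?_
        gnn := ?_
        gint := ?_ }
    · intro t φ ψ hφ hψ
      by_cases ht : t ∈ S
      · simp only [if_pos ht]
        exact ht.2.add _ _ (test_cmp hφ) (test_cmp hψ)
      · simp only [if_neg ht, add_zero]
    · intro t c φ hφ
      by_cases ht : t ∈ S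
      · simp only [if_pos ht]
        exact ht.2.smul c _ (test_cmp hφ)
      · simp only [if_neg ht, mul_zero]
    · intro t φ hφ
      by_cases ht : t ∈ S
      · have ht0 : t ∈ Ioi (0:ℝ) := ht.1
        simp only [if_pos ht, indicator_of_mem ht0]
        refine (ht.2.bound _ (test_cmp hφ)).trans ?_
        refine mul_le_mul (le_abs_self _) (Real.sqrt_le_sqrt ?_) (Real.sqrt_nonneg _)
          (abs_nonneg _)
        rw [grad_cmp (vt_diff hφ), sqNorm_cmp]
        have i1 : Integrable (fun x => ‖φ x‖ ^ 2) :=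
          (Pool.Agent.Helper42.Jef.memLp_cc hφ.smooth.continuous hφ.cpt 2).norm.integrable_sq
        have i2 : Integrable (fun x => ‖Pool.Agent.Helper42.Jef.grad φ x‖ ^ 2) :=
          (Pool.Agent.Helper42.Jef.memLp_cc hφ.grad_cont hφ.grad_cpt 2).norm.integrable_sq
        rw [integral_add i1.integrableOn i2.integrableOn]
        exact add_le_add (setIntegral_le_integral i1 (Eventually.of_forall fun x => by positivity))
          (setIntegral_le_integral i2 (Eventually.of_forall fun x => by positivity))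
      · simp only [if_neg ht, abs_zero]
        exact mul_nonneg (indicator_nonneg (fun _ _ => abs_nonneg _) _) (Real.sqrt_nonneg _)
    · intro φ hφ
      have h1 : AEStronglyMeasurable ((Ioi (0:ℝ)).indicator fun t => f t (cmp φ)) volume :=
        (aestronglyMeasurable_indicator_iff measurableSet_Ioi).2 (hm _ (test_cmp hφ))
      refine h1.congr ?_
      filter_upwards [hae'] with t ht
      by_cases h0 : 0 < t
      · have h0' : t ∈ Ioi (0:ℝ) := h0
        rw [indicator_of_mem h0', if_pos (ht h0)]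
      · have h0' : t ∉ Ioi (0:ℝ) := h0
        have h0'' : t ∉ S := fun hc => h0 hc.1
        rw [indicator_of_notMem h0', if_neg h0'']
    · exact (aestronglyMeasurable_indicator_iff measurableSet_Ioi).2 hgabs
    · exact fun t => indicator_nonneg (fun _ _ => abs_nonneg _) _
    · intro T
      rcases le_or_gt T 0 with hT | hT
      · rw [Ioo_eq_empty (not_lt.2 hT)]
        exact integrableOn_empty
      · refine (hg T hT).congr_fun (fun t ht => ?_) measurableSet_Ioo
        simp only [indicator_of_mem (show t ∈ Ioi (0:ℝ) from ht.1), sq_abs]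
  · rw [ae_restrict_iff' measurableSet_Ioi]
    filter_upwards [hae'] with t ht h0 φ
    exact if_pos (ht h0)

end Pool.Agent.Helper42.JefStmt
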