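import Pool.Agent.Helper42.JefB.Main

/-!
The proof is in `Pool/Agent/Helper42/JefB/*.lean`: these 19 files are the concatenation of the
modules `Pool/Agent/Helper*/Jef*` of the team (bundled to keep the build time low).
-/
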